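import Mathlib
import Pool.Prelude.Def_F_8adaa765

set_option autoImplicit false
open N435e839e Finset

namespace Pool.Agent.H89.Greedy

lemma mem_prefix_le (n t a : ℕ) (h : a ∈ greedyPrefix true n t) : a ≤ t := by
  induction t with
  | zero => simp [greedyPrefix] at h; omega
  | succ t ih =>
    simp only [greedyPrefix] at h
    split_ifs at h with hc
    · rcases Finset.mem_insert.1 h with h | h
      · omega
      · have := ih h; omega
    · have := ih h; omega

lemma prefix_coprime (n t a b : ℕ) (ha : a ∈ greedyPrefix true n t)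
    (hb : b ∈ greedyPrefix true n t) (hb0 : 0 < b) (hab : b < a) :
    Nat.Coprime (n - a) (n - b) := by
  induction t with
  | zero => simp [greedyPrefix] at ha; omega
  | succ t ih =>
    simp only [greedyPrefix] at ha hb
    split_ifs at ha hb with hc
    · rcases Finset.mem_insert.1 ha with ha | ha
      · rcases Finset.mem_insert.1 hb with hb | hb
        · omega
        · rcases hc with hc | hc
          · omega
          · rw [ha]; exact hc b hb
      · rcases Finset.mem_insert.1 hb with hb | hb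
        · have := mem_prefix_le n t a ha; omega
        · exact ih ha hb
    · exact ih ha hb

lemma selected_coprime (n a b : ℕ) (ha : a ∈ selected true n) (hb : b ∈ selected true n)
    (hab : a ≠ b) : Nat.Coprime (n - a) (n - b) := by
  simp only [selected, Finset.mem_filter] at ha hb
  rcases lt_or_gt_of_ne hab with h | h
  · exact (prefix_coprime n _ b a hb.1 ha.1 ha.2.1 h).symm
  · exact prefix_coprime n _ a b ha.1 hb.1 hb.2.1 h

/-- The thresholds. -/
def zz (L : ℕ) : ℕ := 2 ^ (2 ^ (2 ^ L))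

lemma zz_mono {a b : ℕ} (h : a ≤ b) : zz a ≤ zz b := by
  unfold zz
  gcongr <;> norm_num

lemma lt_zz (L : ℕ) : L < zz L := by
  unfold zz
  calc L < 2 ^ L := Nat.lt_two_pow_self
    _ ≤ 2 ^ (2 ^ L) := (Nat.lt_two_pow_self).le
    _ ≤ 2 ^ (2 ^ (2 ^ L)) := (Nat.lt_two_pow_self).le

/-- number of thresholds at most `p`. -/
def lev (p : ℕ) : ℕ := ((Finset.range p).filter (fun L => zz L ≤ p)).card

lemma lt_lev_iff (p L : ℕ) : L < lev p ↔ zz L ≤ p := by
  have key : ∃ k, (Finset.range p).filter (fun L => zz L ≤ p) = Finset.range k := by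
    have hex : ∃ k, ¬ zz k ≤ p := ⟨p, by have := lt_zz p; omega⟩
    obtain ⟨k, hk1, hk2⟩ : ∃ k, ¬ zz k ≤ p ∧ ∀ m < k, zz m ≤ p := by
      classical
      refine ⟨Nat.find hex, Nat.find_spec hex, fun m hm => ?_⟩
      have := Nat.find_min hex hm
      push Not at this
      exact this
    refine ⟨k, ?_⟩
    ext L
    simp only [Finset.mem_filter, Finset.mem_range]
    constructor
    · rintro ⟨h1, h2⟩
      by_contra hcon
      push Not at hcon
      exact hk1 ((zz_mono hcon).trans h2)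
    · intro h
      have := hk2 L h
      exact ⟨lt_of_lt_of_le (lt_zz L) this, this⟩
  obtain ⟨k, hk⟩ := key
  have hcard : lev p = k := by
    unfold lev; rw [hk]; simp
  rw [hcard]
  constructor
  · intro h
    have : L ∈ (Finset.range p).filter (fun L => zz L ≤ p) := by
      rw [hk]; simpa using h
    simpa using (Finset.mem_filter.1 this).2
  · intro h
    have : L ∈ (Finset.range p).filter (fun L => zz L ≤ p) := by
      simp only [Finset.mem_filter, Finset.mem_range]
      exact ⟨lt_of_lt_of_le (lt_zz L) h, h⟩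
    rw [hk] at this
    simpa using this

lemma lt_zz_lev (p : ℕ) : p < zz (lev p) := by
  by_contra h
  push Not at h
  have := (lt_lev_iff p (lev p)).2 h
  omega

/-- harmonic upper bound on dyadic block. -/
lemma sum_inv_dyadic (p e : ℕ) (hp : 1 ≤ p) :
    ∑ a ∈ Finset.Ico p (p * 2 ^ e), (1 : ℝ) / (a : ℝ) ≤ e := by
  induction e with
  | zero => simp
  | succ e ih =>
    have h1 : p ≤ p * 2 ^ e := Nat.le_mul_of_pos_right _ (by positivity)
    have h2 : p * 2 ^ e ≤ p * 2 ^ (e + 1) := by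
      apply Nat.mul_le_mul_left
      exact Nat.pow_le_pow_right (by norm_num) (by omega)
    rw [← Finset.sum_Ico_consecutive _ h1 h2]
    have h3 : ∑ a ∈ Finset.Ico (p * 2 ^ e) (p * 2 ^ (e + 1)), (1 : ℝ) / (a : ℝ) ≤ 1 := by
      have hpos : 0 < p * 2 ^ e := by positivity
      calc ∑ a ∈ Finset.Ico (p * 2 ^ e) (p * 2 ^ (e + 1)), (1 : ℝ) / (a : ℝ)
          ≤ ∑ a ∈ Finset.Ico (p * 2 ^ e) (p * 2 ^ (e + 1)), (1 : ℝ) / ((p * 2 ^ e : ℕ) : ℝ) := by
            apply Finset.sum_le_sum
            intro a ha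
            rw [Finset.mem_Ico] at ha
            apply one_div_le_one_div_of_le
            · exact_mod_cast hpos
            · exact_mod_cast ha.1
        _ = 1 := by
            rw [Finset.sum_const, Nat.card_Ico, nsmul_eq_mul]
            have : p * 2 ^ (e + 1) - p * 2 ^ e = p * 2 ^ e := by
              rw [pow_succ]; ring_nf; omega
            rw [this]
            field_simp
    push_cast
    linarith

/-- Chebyshev on a dyadic block. -/
lemma card_primes_dyadic (j : ℕ) :
    j * ((Finset.Ico (2 ^ j) (2 ^ (j + 1))).filter Nat.Prime).card ≤ 4 * 2 ^ j := by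
  have h1 : (2 ^ j) ^ ((Finset.Ico (2 ^ j) (2 ^ (j + 1))).filter Nat.Prime).card
      ≤ ∏ p ∈ (Finset.Ico (2 ^ j) (2 ^ (j + 1))).filter Nat.Prime, p := by
    apply Finset.pow_card_le_prod
    intro p hp
    rw [Finset.mem_filter, Finset.mem_Ico] at hp
    exact hp.1.1
  have h2 : ∏ p ∈ (Finset.Ico (2 ^ j) (2 ^ (j + 1))).filter Nat.Prime, p
      ≤ primorial (2 ^ (j + 1)) := by
    unfold primorial
    apply Finset.prod_le_prod_of_subset_of_one_le'
    · intro p hp
      rw [Finset.mem_filter, Finset.mem_Ico] at hp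
      rw [Finset.mem_filter, Finset.mem_range]
      exact ⟨by omega, hp.2⟩
    · intro p hp _
      rw [Finset.mem_filter] at hp
      exact hp.2.one_lt.le
  have h3 := primorial_le_four_pow (2 ^ (j + 1))
  have h4 : (2 ^ j) ^ ((Finset.Ico (2 ^ j) (2 ^ (j + 1))).filter Nat.Prime).card
      ≤ 2 ^ (2 * 2 ^ (j + 1)) := by
    calc _ ≤ 4 ^ (2 ^ (j + 1)) := h1.trans (h2.trans h3)
      _ = 2 ^ (2 * 2 ^ (j + 1)) := by rw [pow_mul]; norm_num
  rw [← pow_mul] at h4
  have h5 := (Nat.pow_le_pow_iff_right (by norm_num : 1 < 2)).1 h4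
  have h6 : 2 * 2 ^ (j + 1) = 4 * 2 ^ j := by rw [pow_succ]; ring
  rw [h6] at h5
  exact h5

lemma sum_inv_primes_dyadic (j : ℕ) (hj : 1 ≤ j) :
    ∑ p ∈ (Finset.Ico (2 ^ j) (2 ^ (j + 1))).filter Nat.Prime, (1 : ℝ) / (p : ℝ) ≤ 4 * (1 / (j : ℝ)) := by
  have hc := card_primes_dyadic j
  have hjpos : (0 : ℝ) < j := by exact_mod_cast hj
  calc ∑ p ∈ (Finset.Ico (2 ^ j) (2 ^ (j + 1))).filter Nat.Prime, (1 : ℝ) / (p : ℝ)
      ≤ ∑ p ∈ (Finset.Ico (2 ^ j) (2 ^ (j + 1))).filter Nat.Prime, (1 : ℝ) / ((2 ^ j : ℕ) : ℝ) := by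
        apply Finset.sum_le_sum
        intro a ha
        rw [Finset.mem_filter, Finset.mem_Ico] at ha
        apply one_div_le_one_div_of_le
        · positivity
        · exact_mod_cast ha.1.1
    _ = (((Finset.Ico (2 ^ j) (2 ^ (j + 1))).filter Nat.Prime).card : ℝ) / (2 ^ j : ℝ) := by
        rw [Finset.sum_const, nsmul_eq_mul]
        push_cast
        ring
    _ ≤ 4 * (1 / (j : ℝ)) := by
        rw [div_le_iff₀ (by positivity)]
        have h2 : (j : ℝ) * (((Finset.Ico (2 ^ j) (2 ^ (j + 1))).filter Nat.Prime).card : ℝ) ≤ 4 * 2 ^ j := by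
          exact_mod_cast hc
        rw [mul_one_div, div_mul_eq_mul_div, le_div_iff₀ hjpos]
        linarith

lemma sum_inv_primes_lt (J : ℕ) :
    ∑ p ∈ (Finset.range (2 ^ J)).filter Nat.Prime, (1 : ℝ) / (p : ℝ)
      ≤ 4 * ∑ j ∈ Finset.Ico 1 J, (1 : ℝ) / (j : ℝ) := by
  induction J with
  | zero =>
    have : (Finset.range (2 ^ 0)).filter Nat.Prime = ∅ := by decide
    rw [this]; simp
  | succ J ih =>
    rcases Nat.eq_zero_or_pos J with rfl | hJ
    · have : (Finset.range (2 ^ (0 + 1))).filter Nat.Prime = ∅ := by decide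
      rw [this]; simp
    · rw [Finset.sum_Ico_succ_top hJ]
      have hsplit : (Finset.range (2 ^ (J + 1))).filter Nat.Prime
          = (Finset.range (2 ^ J)).filter Nat.Prime
            ∪ (Finset.Ico (2 ^ J) (2 ^ (J + 1))).filter Nat.Prime := by
        ext p
        simp only [Finset.mem_union, Finset.mem_filter, Finset.mem_range, Finset.mem_Ico]
        have : 2 ^ J ≤ 2 ^ (J + 1) := Nat.pow_le_pow_right (by norm_num) (by omega)
        constructor
        · rintro ⟨h1, h2⟩
          by_cases h : p < 2 ^ J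
          · exact Or.inl ⟨h, h2⟩
          · exact Or.inr ⟨⟨by omega, h1⟩, h2⟩
        · rintro (⟨h1, h2⟩ | ⟨⟨h0, h1⟩, h2⟩)
          · exact ⟨by omega, h2⟩
          · exact ⟨h1, h2⟩
      rw [hsplit, Finset.sum_union]
      · have := sum_inv_primes_dyadic J hJ
        linarith
      · rw [Finset.disjoint_left]
        intro p hp hp'
        simp only [Finset.mem_filter, Finset.mem_range, Finset.mem_Ico] at hp hp'
        omega

lemma sum_inv_primes_lt_zz (K : ℕ) :
    ∑ p ∈ (Finset.range (zz K)).filter Nat.Prime, (1 : ℝ) / (p : ℝ) ≤ 4 * 2 ^ K := by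
  have h1 := sum_inv_primes_lt (2 ^ (2 ^ K))
  have h2 := sum_inv_dyadic 1 (2 ^ K) le_rfl
  rw [one_mul] at h2
  push_cast at h2
  unfold zz
  linarith

/-- First part: the weighted prime sum is bounded. -/
lemma sum_weighted_primes (n : ℕ) :
    ∑ p ∈ (Finset.range n).filter Nat.Prime, (1 : ℝ) / ((p : ℝ) * 4 ^ (lev p)) ≤ 8 := by
  have hlev : ∀ p ∈ (Finset.range n).filter Nat.Prime, lev p ∈ Finset.range (n + 1) := by
    intro p hp
    rw [Finset.mem_filter, Finset.mem_range] at hp
    rw [Finset.mem_range]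
    unfold lev
    calc _ ≤ (Finset.range p).card := Finset.card_filter_le _ _
      _ = p := by simp
      _ < n + 1 := by omega
  rw [← Finset.sum_fiberwise_of_maps_to hlev]
  calc ∑ l ∈ Finset.range (n + 1), ∑ p ∈ ((Finset.range n).filter Nat.Prime).filter (fun p => lev p = l),
        (1 : ℝ) / ((p : ℝ) * 4 ^ (lev p))
      ≤ ∑ l ∈ Finset.range (n + 1), 4 * (1 / 2 : ℝ) ^ l := by
        apply Finset.sum_le_sum
        intro l _
        calc ∑ p ∈ ((Finset.range n).filter Nat.Prime).filter (fun p => lev p = l),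
              (1 : ℝ) / ((p : ℝ) * 4 ^ (lev p))
            = ∑ p ∈ ((Finset.range n).filter Nat.Prime).filter (fun p => lev p = l),
              (1 / 4 : ℝ) ^ l * ((1 : ℝ) / (p : ℝ)) := by
              apply Finset.sum_congr rfl
              intro p hp
              rw [Finset.mem_filter] at hp
              rw [hp.2, one_div_pow]
              rw [one_div_mul_one_div, mul_comm]
          _ = (1 / 4 : ℝ) ^ l * ∑ p ∈ ((Finset.range n).filter Nat.Prime).filter (fun p => lev p = l),
              ((1 : ℝ) / (p : ℝ)) := by rw [Finset.mul_sum]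
          _ ≤ (1 / 4 : ℝ) ^ l * ∑ p ∈ (Finset.range (zz l)).filter Nat.Prime, ((1 : ℝ) / (p : ℝ)) := by
              apply mul_le_mul_of_nonneg_left _ (by positivity)
              apply Finset.sum_le_sum_of_subset_of_nonneg
              · intro p hp
                simp only [Finset.mem_filter, Finset.mem_range] at hp ⊢
                refine ⟨?_, hp.1.2⟩
                rw [← hp.2]
                exact lt_zz_lev p
              · intro p _ _
                positivity
          _ ≤ (1 / 4 : ℝ) ^ l * (4 * 2 ^ l) := by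
              apply mul_le_mul_of_nonneg_left (sum_inv_primes_lt_zz l) (by positivity)
          _ = 4 * (1 / 2 : ℝ) ^ l := by
              have : (1 / 2 : ℝ) ^ l = (1 / 4 : ℝ) ^ l * 2 ^ l := by
                rw [← mul_pow]; norm_num
              rw [this]; ring
    _ = 4 * ∑ l ∈ Finset.range (n + 1), (1 / 2 : ℝ) ^ l := by rw [Finset.mul_sum]
    _ ≤ 4 * 2 := by
        apply mul_le_mul_of_nonneg_left _ (by norm_num)
        exact sum_geometric_two_le (n + 1)
    _ = 8 := by norm_num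

/-- Mertens-type product bound. -/
lemma harmonic_le_prod (N : ℕ) :
    ∑ m ∈ Finset.Ico 1 N, (1 : ℝ) / (m : ℝ) ≤ ∏ p ∈ N.primesBelow, (1 - (p : ℝ)⁻¹)⁻¹ := by
  classical
  let f : ℕ →* ℝ :=
    { toFun := fun n => ((n : ℝ))⁻¹
      map_one' := by simp
      map_mul' := by intro a b; push_cast; rw [mul_inv] }
  have hf : ∀ {p : ℕ}, p.Prime → ‖f p‖ < 1 := by
    intro p hp
    change ‖((p : ℝ))⁻¹‖ < 1
    rw [norm_inv, Real.norm_natCast]
    apply inv_lt_one_of_one_lt₀
    exact_mod_cast hp.one_lt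
  obtain ⟨hs, hsum⟩ := EulerProduct.summable_and_hasSum_smoothNumbers_prod_primesBelow_geometric hf N
  change HasSum (fun m : N.smoothNumbers => ((m : ℕ) : ℝ)⁻¹) (∏ p ∈ N.primesBelow, (1 - (p : ℝ)⁻¹)⁻¹) at hsum
  have hmem : ∀ m ∈ Finset.Ico 1 N, m ∈ N.smoothNumbers := by
    intro m hm
    rw [Finset.mem_Ico] at hm
    rw [Nat.mem_smoothNumbers']
    intro p hp hpm
    exact lt_of_le_of_lt (Nat.le_of_dvd (by omega) hpm) hm.2
  let S : Finset N.smoothNumbers := (Finset.Ico 1 N).attach.image (fun m => ⟨m.1, hmem m.1 m.2⟩)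
  have h1 := sum_le_hasSum S (fun i _ => by positivity) hsum
  refine le_trans (le_of_eq ?_) h1
  rw [Finset.sum_image]
  · rw [← Finset.sum_attach]
    apply Finset.sum_congr rfl
    intro x _
    simp [one_div]
  · intro x _ y _ h
    apply Subtype.ext
    simpa using congrArg Subtype.val h

lemma totient_primorial_mul_harmonic (w : ℕ) :
    (Nat.totient (primorial w) : ℝ) * ∑ m ∈ Finset.Ico 1 (w + 1), (1 : ℝ) / (m : ℝ)
      ≤ (primorial w : ℝ) := by
  have h1 := harmonic_le_prod (w + 1)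
  have h2 : (Nat.totient (primorial w) : ℝ)
      = (primorial w : ℝ) * ∏ p ∈ (w + 1).primesBelow, (1 - (p : ℝ)⁻¹) := by
    have h3 := Nat.totient_eq_mul_prod_factors (primorial w)
    rw [primeFactors_primorial] at h3
    have h4 : (primorial w).totient = (primorial w : ℚ) * ∏ p ∈ (w + 1).primesBelow, (1 - (p : ℚ)⁻¹) := h3
    have h5 : (((primorial w).totient : ℚ) : ℝ)
      = ((primorial w : ℚ) * ∏ p ∈ (w + 1).primesBelow, (1 - (p : ℚ)⁻¹) : ℚ) := by rw [h4]
    push_cast at h5
    exact h5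
  rw [h2]
  have hpos : 0 < ∏ p ∈ (w + 1).primesBelow, (1 - (p : ℝ)⁻¹) := by
    apply Finset.prod_pos
    intro p hp
    have hpp := Nat.prime_of_mem_primesBelow hp
    have : (p : ℝ)⁻¹ < 1 := by
      apply inv_lt_one_of_one_lt₀
      exact_mod_cast hpp.one_lt
    linarith
  rw [Finset.prod_inv_distrib] at h1
  have h6 : (∏ p ∈ (w + 1).primesBelow, (1 - (p : ℝ)⁻¹)) * ∑ m ∈ Finset.Ico 1 (w + 1), (1 : ℝ) / (m : ℝ) ≤ 1 := by
    calc _ ≤ (∏ p ∈ (w + 1).primesBelow, (1 - (p : ℝ)⁻¹)) * (∏ p ∈ (w + 1).primesBelow, (1 - (p : ℝ)⁻¹))⁻¹ :=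
          mul_le_mul_of_nonneg_left h1 hpos.le
      _ = 1 := mul_inv_cancel₀ hpos.ne'
  have h7 : (0 : ℝ) ≤ primorial w := by positivity
  calc _ = (primorial w : ℝ) * ((∏ p ∈ (w + 1).primesBelow, (1 - (p : ℝ)⁻¹)) * ∑ m ∈ Finset.Ico 1 (w + 1), (1 : ℝ) / (m : ℝ)) := by ring
    _ ≤ (primorial w : ℝ) * 1 := mul_le_mul_of_nonneg_left h6 h7
    _ = _ := mul_one _

/-- harmonic lower bound. -/
lemma harmonic_lower (r : ℕ) :
    1 + (r : ℝ) / 2 ≤ ∑ m ∈ Finset.Ico (1 : ℕ) (2 ^ r + 1), (1 : ℝ) / (m : ℝ) := by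
  induction r with
  | zero => simp
  | succ r ih =>
    have h1 : (1 : ℕ) ≤ 2 ^ r + 1 := Nat.le_add_left _ _
    have h2 : (2 : ℕ) ^ r + 1 ≤ 2 ^ (r + 1) + 1 := by
      have : (2 : ℕ) ^ r ≤ 2 ^ (r + 1) := Nat.pow_le_pow_right (by norm_num) (by omega)
      omega
    rw [← Finset.sum_Ico_consecutive _ h1 h2]
    have h3 : (1 : ℝ) / 2 ≤ ∑ a ∈ Finset.Ico ((2 : ℕ) ^ r + 1) (2 ^ (r + 1) + 1), (1 : ℝ) / (a : ℝ) := by
      calc (1 : ℝ) / 2 = ∑ a ∈ Finset.Ico ((2 : ℕ) ^ r + 1) (2 ^ (r + 1) + 1), (1 : ℝ) / ((2 ^ (r + 1) : ℕ) : ℝ) := by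
            rw [Finset.sum_const, Nat.card_Ico, nsmul_eq_mul]
            have : 2 ^ (r + 1) + 1 - (2 ^ r + 1) = 2 ^ r := by rw [pow_succ]; omega
            rw [this]
            push_cast
            rw [pow_succ]
            field_simp
        _ ≤ _ := by
            apply Finset.sum_le_sum
            intro a ha
            rw [Finset.mem_Ico] at ha
            apply one_div_le_one_div_of_le
            · have : 0 < a := by omega
              exact_mod_cast this
            · have : a ≤ 2 ^ (r + 1) := by omega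
              exact_mod_cast this
    push_cast
    linarith

/-- Counting integers below `2X` all of whose prime factors are at least `zz L`. -/
lemma card_rough (X L : ℕ) :
    (((Finset.Ico 2 (2 * X)).filter (fun N => zz L ≤ N.minFac)).card : ℝ) * 2 ^ L ≤ 6 * X := by
  by_cases hz : zz L < 2 * X
  swap
  · have : (Finset.Ico 2 (2 * X)).filter (fun N => zz L ≤ N.minFac) = ∅ := by
      rw [Finset.filter_eq_empty_iff]
      intro N hN hcon
      rw [Finset.mem_Ico] at hN
      have := Nat.minFac_le (n := N) (by omega)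
      omega
    rw [this]
    simp
  rcases Nat.eq_zero_or_pos L with rfl | hL
  · have h1 : ((Finset.Ico 2 (2 * X)).filter (fun N => zz 0 ≤ N.minFac)).card ≤ 2 * X := by
      calc _ ≤ (Finset.Ico 2 (2 * X)).card := Finset.card_filter_le _ _
        _ = 2 * X - 2 := by simp
        _ ≤ 2 * X := by omega
    have h2 : (((Finset.Ico 2 (2 * X)).filter (fun N => zz 0 ≤ N.minFac)).card : ℝ) ≤ 2 * X := by
      exact_mod_cast h1
    have h3 : (0 : ℝ) ≤ X := by positivity
    rw [pow_zero, mul_one]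
    linarith
  -- main case
  obtain ⟨J, hJ⟩ : ∃ J, J = 2 ^ (2 ^ L) := ⟨_, rfl⟩
  have h2L : 2 ≤ 2 ^ L := by
    calc 2 = 2 ^ 1 := by norm_num
      _ ≤ 2 ^ L := Nat.pow_le_pow_right (by norm_num) hL
  obtain ⟨r, hr⟩ : ∃ r, 2 ^ L = r + 2 := ⟨2 ^ L - 2, by omega⟩
  have hJr : J = 4 * 2 ^ r := by
    rw [hJ, hr, pow_add]; ring
  have hzJ : zz L = 2 ^ J := by unfold zz; rw [hJ]
  -- primorial(2^r) ≤ X
  have hP : primorial (2 ^ r) ≤ X := by
    have h1 := primorial_le_four_pow (2 ^ r)
    have h2 : (4 : ℕ) ^ (2 ^ r) = 2 ^ (2 * 2 ^ r) := by rw [pow_mul]; norm_num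
    have h3 : 2 ^ J = 2 * 2 ^ (J - 1) := by
      rw [← pow_succ']
      congr 1
      have : 0 < 2 ^ r := by positivity
      omega
    have h4 : 2 ^ (J - 1) < X := by
      rw [hzJ, h3] at hz
      omega
    have h5 : 2 ^ (2 * 2 ^ r) ≤ 2 ^ (J - 1) := by
      apply Nat.pow_le_pow_right (by norm_num)
      have : 0 < 2 ^ r := by positivity
      omega
    omega
  have hsub : (Finset.Ico 2 (2 * X)).filter (fun N => zz L ≤ N.minFac)
      ⊆ (Finset.Ico 0 (0 + 2 * X)).filter (fun N => (primorial (2 ^ r)).Coprime N) := by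
    intro N hN
    rw [Finset.mem_filter, Finset.mem_Ico] at hN ⊢
    refine ⟨by omega, ?_⟩
    rw [Nat.coprime_comm, Nat.Coprime]
    by_contra hcon
    obtain ⟨p, hp, hpd⟩ := Nat.exists_prime_and_dvd hcon
    have hpN := hpd.trans (Nat.gcd_dvd_left _ _)
    have hpP := hpd.trans (Nat.gcd_dvd_right _ _)
    rw [hp.dvd_primorial_iff] at hpP
    have h1 := Nat.minFac_le_of_dvd hp.two_le hpN
    have h2 : 2 ^ r < zz L := by
      rw [hzJ]
      calc 2 ^ r < 2 ^ (2 ^ r) := Nat.lt_two_pow_self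
        _ ≤ 2 ^ J := Nat.pow_le_pow_right (by norm_num) (by omega)
    omega
  have hcard := (Finset.card_le_card hsub).trans
    (Nat.Ico_filter_coprime_le 0 (2 * X) (primorial_ne_zero (2 ^ r)))
  have hPpos := primorial_pos (2 ^ r)
  obtain ⟨P, hPdef⟩ : ∃ P, P = primorial (2 ^ r) := ⟨_, rfl⟩
  rw [← hPdef] at hcard hP hPpos
  have hmain := totient_primorial_mul_harmonic (2 ^ r)
  rw [← hPdef] at hmain
  have hharm := harmonic_lower r
  have hr2 : (2 : ℝ) ^ L = r + 2 := by exact_mod_cast hr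
  have hPR : (0 : ℝ) < P := by exact_mod_cast hPpos
  have hXR : (P : ℝ) ≤ X := by exact_mod_cast hP
  have hφ : (P.totient : ℝ) * 2 ^ L ≤ 2 * P := by
    have h0 : (0 : ℝ) ≤ P.totient := by positivity
    have : (P.totient : ℝ) * (1 + (r : ℝ) / 2) ≤ P := le_trans (mul_le_mul_of_nonneg_left hharm h0) hmain
    rw [hr2]
    linarith
  have hc2 : (((Finset.Ico 2 (2 * X)).filter (fun N => zz L ≤ N.minFac)).card : ℝ)
      ≤ (P.totient : ℝ) * ((2 * X) / P + 1) := by
    have h1 : (((Finset.Ico 2 (2 * X)).filter (fun N => zz L ≤ N.minFac)).card : ℝ)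
      ≤ ((P.totient * (2 * X / P + 1) : ℕ) : ℝ) := by exact_mod_cast hcard
    refine h1.trans ?_
    push_cast
    apply mul_le_mul_of_nonneg_left _ (by positivity)
    have := @Nat.cast_div_le ℝ _ _ _ (2 * X) P
    push_cast at this
    linarith
  have hc3 : (2 * (X : ℝ)) / P + 1 ≤ 3 * X / P := by
    rw [div_add_one hPR.ne', div_le_div_iff_of_pos_right hPR]
    linarith
  calc (((Finset.Ico 2 (2 * X)).filter (fun N => zz L ≤ N.minFac)).card : ℝ) * 2 ^ L
      ≤ ((P.totient : ℝ) * (3 * X / P)) * 2 ^ L := by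
        apply mul_le_mul_of_nonneg_right _ (by positivity)
        exact hc2.trans (mul_le_mul_of_nonneg_left hc3 (by positivity))
    _ = ((P.totient : ℝ) * 2 ^ L) * (3 * X / P) := by ring
    _ ≤ (2 * P) * (3 * X / P) := by
        apply mul_le_mul_of_nonneg_right hφ (by positivity)
    _ = 6 * X := by field_simp; ring

lemma sum_lev (X : ℕ) :
    ∑ N ∈ Finset.Ico 2 (2 * X), (lev N.minFac : ℝ) ≤ 12 * X := by
  have h1 : ∀ N ∈ Finset.Ico 2 (2 * X), (lev N.minFac : ℝ)
      = ∑ L ∈ Finset.range (2 * X), if zz L ≤ N.minFac then (1 : ℝ) else 0 := by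
    intro N hN
    rw [Finset.mem_Ico] at hN
    rw [Finset.sum_boole]
    congr 1
    unfold lev
    congr 1
    ext L
    simp only [Finset.mem_filter, Finset.mem_range]
    constructor
    · rintro ⟨h1, h2⟩
      have := Nat.minFac_le (n := N) (by omega)
      exact ⟨by omega, h2⟩
    · rintro ⟨h1, h2⟩
      exact ⟨lt_of_lt_of_le (lt_zz L) h2, h2⟩
  rw [Finset.sum_congr rfl h1, Finset.sum_comm]
  calc ∑ L ∈ Finset.range (2 * X), ∑ N ∈ Finset.Ico 2 (2 * X), (if zz L ≤ N.minFac then (1 : ℝ) else 0)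
      ≤ ∑ L ∈ Finset.range (2 * X), (6 * X : ℝ) * (1 / 2 : ℝ) ^ L := by
        apply Finset.sum_le_sum
        intro L _
        rw [Finset.sum_boole]
        have := card_rough X L
        rw [one_div_pow, mul_one_div, le_div_iff₀ (by positivity)]
        exact this
    _ = (6 * X : ℝ) * ∑ L ∈ Finset.range (2 * X), (1 / 2 : ℝ) ^ L := by rw [Finset.mul_sum]
    _ ≤ (6 * X : ℝ) * 2 := by
        apply mul_le_mul_of_nonneg_left (sum_geometric_two_le _) (by positivity)
    _ = 12 * X := by ring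

/-- The pairs contributing to the second part. -/
def second (n : ℕ) : Finset ℕ :=
  (Finset.Ico 1 n).filter (fun a => 2 ≤ n - a ∧ (n - a).minFac ≤ a ∧
    a < (n - a).minFac * 2 ^ (2 * lev (n - a).minFac))

lemma sum_second (X : ℕ) :
    ∑ n ∈ Finset.Ico X (2 * X), ∑ a ∈ second n, (1 : ℝ) / (a : ℝ) ≤ 24 * X := by
  classical
  -- rewrite as a sum over pairs
  have h1 : ∑ n ∈ Finset.Ico X (2 * X), ∑ a ∈ second n, (1 : ℝ) / (a : ℝ)
      = ∑ x ∈ (Finset.Ico X (2 * X)).sigma second, (1 : ℝ) / (x.2 : ℝ) := by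
    rw [Finset.sum_sigma]
  have h2 : ∑ N ∈ Finset.Ico 2 (2 * X), ∑ a ∈ Finset.Ico N.minFac (N.minFac * 2 ^ (2 * lev N.minFac)), (1 : ℝ) / (a : ℝ)
      = ∑ x ∈ (Finset.Ico 2 (2 * X)).sigma
          (fun N => Finset.Ico N.minFac (N.minFac * 2 ^ (2 * lev N.minFac))), (1 : ℝ) / (x.2 : ℝ) := by
    rw [Finset.sum_sigma]
  have h3 : ∑ x ∈ (Finset.Ico X (2 * X)).sigma second, (1 : ℝ) / (x.2 : ℝ)
      ≤ ∑ x ∈ (Finset.Ico 2 (2 * X)).sigma
          (fun N => Finset.Ico N.minFac (N.minFac * 2 ^ (2 * lev N.minFac))), (1 : ℝ) / (x.2 : ℝ) := by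
    let φ : (Σ _ : ℕ, ℕ) → (Σ _ : ℕ, ℕ) := fun x => ⟨x.1 - x.2, x.2⟩
    have hinj : Set.InjOn φ ((Finset.Ico X (2 * X)).sigma second : Finset (Σ _ : ℕ, ℕ)) := by
      rintro ⟨n, a⟩ hx ⟨n', a'⟩ hy h
      simp only [Finset.coe_sigma, Set.mem_sigma_iff, Finset.mem_coe, second, Finset.mem_filter,
        Finset.mem_Ico] at hx hy
      simp only [φ, Sigma.mk.injEq, heq_eq_eq] at h
      obtain ⟨h1, h2⟩ := h
      subst h2
      have : n = n' := by omega
      subst this
      rfl
    have himg : ∑ x ∈ (Finset.Ico X (2 * X)).sigma second, (1 : ℝ) / (x.2 : ℝ)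
        = ∑ y ∈ ((Finset.Ico X (2 * X)).sigma second).image φ, (1 : ℝ) / (y.2 : ℝ) := by
      rw [Finset.sum_image hinj]
    rw [himg]
    apply Finset.sum_le_sum_of_subset_of_nonneg
    · intro y hy
      rw [Finset.mem_image] at hy
      obtain ⟨⟨n, a⟩, hx, rfl⟩ := hy
      simp only [Finset.mem_sigma, second, Finset.mem_filter, Finset.mem_Ico, φ] at hx ⊢
      refine ⟨⟨hx.2.2.1, by omega⟩, hx.2.2.2⟩
    · intro y _ _
      positivity
  rw [h1]
  refine h3.trans ?_
  rw [← h2]
  calc ∑ N ∈ Finset.Ico 2 (2 * X), ∑ a ∈ Finset.Ico N.minFac (N.minFac * 2 ^ (2 * lev N.minFac)), (1 : ℝ) / (a : ℝ)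
      ≤ ∑ N ∈ Finset.Ico 2 (2 * X), 2 * (lev N.minFac : ℝ) := by
        apply Finset.sum_le_sum
        intro N _
        have := sum_inv_dyadic N.minFac (2 * lev N.minFac) (Nat.minFac_pos N)
        push_cast at this
        exact this
    _ = 2 * ∑ N ∈ Finset.Ico 2 (2 * X), (lev N.minFac : ℝ) := by rw [Finset.mul_sum]
    _ ≤ 2 * (12 * X) := by
        apply mul_le_mul_of_nonneg_left (sum_lev X) (by norm_num)
    _ = 24 * X := by ring

lemma properSum_le (n : ℕ) : properSum true n ≤ 8 + ∑ a ∈ second n, (1 : ℝ) / (a : ℝ) := by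
  classical
  unfold properSum
  set A := (selected true n).filter (Proper n) with hA
  have hprop : ∀ a ∈ A, 0 < a ∧ a < n ∧ 2 ≤ n - a ∧ (n - a).minFac ≤ a := by
    intro a ha
    rw [hA, Finset.mem_filter] at ha
    obtain ⟨hs, p, hp, hpa, hpd⟩ := ha
    simp only [selected, Finset.mem_filter] at hs
    have h2 : 2 ≤ n - a := by
      have := Nat.le_of_dvd (by omega) hpd
      have := hp.two_le
      omega
    exact ⟨hs.2.1, hs.2.2, h2, (Nat.minFac_le_of_dvd hp.two_le hpd).trans hpa⟩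
  rw [← Finset.sum_filter_add_sum_filter_not A
    (fun a => (n - a).minFac * 2 ^ (2 * lev (n - a).minFac) ≤ a)]
  apply add_le_add
  · -- first part
    refine le_trans ?_ (sum_weighted_primes n)
    have hinj : Set.InjOn (fun a => (n - a).minFac)
        (A.filter (fun a => (n - a).minFac * 2 ^ (2 * lev (n - a).minFac) ≤ a) : Finset ℕ) := by
      intro a ha b hb hab
      by_contra hne
      rw [Finset.mem_coe, Finset.mem_filter] at ha hb
      have hca := hprop a ha.1
      have hcb := hprop b hb.1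
      rw [hA, Finset.mem_filter] at ha hb
      have hcop := selected_coprime n a b ha.1.1 hb.1.1 hne
      simp only at hab
      have hp : (n - a).minFac.Prime := Nat.minFac_prime (by omega)
      have h1 : (n - a).minFac ∣ n - a := Nat.minFac_dvd _
      have h2 : (n - a).minFac ∣ n - b := by rw [hab]; exact Nat.minFac_dvd _
      exact Nat.not_coprime_of_dvd_of_dvd hp.one_lt h1 h2 hcop
    calc ∑ a ∈ A.filter (fun a => (n - a).minFac * 2 ^ (2 * lev (n - a).minFac) ≤ a), (1 : ℝ) / (a : ℝ)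
        ≤ ∑ a ∈ A.filter (fun a => (n - a).minFac * 2 ^ (2 * lev (n - a).minFac) ≤ a),
            (1 : ℝ) / (((n - a).minFac : ℝ) * 4 ^ (lev (n - a).minFac)) := by
          apply Finset.sum_le_sum
          intro a ha
          rw [Finset.mem_filter] at ha
          have hpos := Nat.minFac_pos (n - a)
          apply one_div_le_one_div_of_le
          · positivity
          · have : (((n - a).minFac * 2 ^ (2 * lev (n - a).minFac) : ℕ) : ℝ) ≤ a := by exact_mod_cast ha.2
            rw [pow_mul] at this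
            push_cast at this
            convert this using 2
      _ = ∑ p ∈ (A.filter (fun a => (n - a).minFac * 2 ^ (2 * lev (n - a).minFac) ≤ a)).image
            (fun a => (n - a).minFac), (1 : ℝ) / ((p : ℝ) * 4 ^ (lev p)) := by
          rw [Finset.sum_image hinj]
      _ ≤ _ := by
          apply Finset.sum_le_sum_of_subset_of_nonneg
          · intro p hp
            rw [Finset.mem_image] at hp
            obtain ⟨a, ha, rfl⟩ := hp
            rw [Finset.mem_filter] at ha
            have hca := hprop a ha.1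
            rw [Finset.mem_filter, Finset.mem_range]
            exact ⟨by omega, Nat.minFac_prime (by omega)⟩
          · intro p _ _
            positivity
  · -- second part
    apply Finset.sum_le_sum_of_subset_of_nonneg
    · intro a ha
      rw [Finset.mem_filter] at ha
      have hca := hprop a ha.1
      have h2 := ha.2
      push Not at h2
      simp only [second, Finset.mem_filter, Finset.mem_Ico]
      exact ⟨⟨hca.1, hca.2.1⟩, hca.2.2.1, hca.2.2.2, h2⟩
    · intro a _ _
      positivity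

/-- Arbitrarily large `n` with bounded sum. -/
theorem exists_bounded (X : ℕ) (hX : 1 ≤ X) :
    ∃ n ∈ Finset.Ico X (2 * X), properSum true n ≤ 32 := by
  by_contra hcon
  push Not at hcon
  have h1 : ∀ n ∈ Finset.Ico X (2 * X), (24 : ℝ) < ∑ a ∈ second n, (1 : ℝ) / (a : ℝ) := by
    intro n hn
    have := hcon n hn
    have := properSum_le n
    linarith
  have hne : (Finset.Ico X (2 * X)).Nonempty := ⟨X, by rw [Finset.mem_Ico]; omega⟩
  have h2 := Finset.sum_lt_sum_of_nonempty hne h1
  have h3 := sum_second X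
  rw [Finset.sum_const, Nat.card_Ico, nsmul_eq_mul] at h2
  have h4 : 2 * X - X = X := by omega
  rw [h4] at h2
  linarith

end Pool.Agent.H89.Greedy
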